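import Mathlib

/-!
MP_a6e60d_ag, derived base change: adjoint exact functors induce adjoint functors on derived
categories; the splitting of the unit and of the counit.
-/

open CategoryTheory Category Limits

attribute [-instance] CategoryTheory.catToReflQuiver

universe w w' v v' u u'

namespace Orl

namespace BC

section Cx

variable {A : Type u} [Category.{v} A] [Preadditive A] {B : Type u'} [Category.{v'} B]
  [Preadditive B] {P : A ⥤ B} {R : B ⥤ A} [P.Additive] [R.Additive] (adj : P ⊣ R)

/-- adjoint functors on complexes -/
def cxAdj : P.mapHomologicalComplex (ComplexShape.up ℤ) ⊣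
    R.mapHomologicalComplex (ComplexShape.up ℤ) :=
  Adjunction.mkOfUnitCounit
    { unit :=
        { app := fun K =>
            { f := fun i => adj.unit.app (K.X i)
              comm' := fun i j _ => (adj.unit.naturality (K.d i j)).symm }
          naturality := fun K L f => by
            ext i
            exact adj.unit.naturality (f.f i) }
      counit :=
        { app := fun K =>
            { f := fun i => adj.counit.app (K.X i)
              comm' := fun i j _ => (adj.counit.naturality (K.d i j)).symm }
          naturality := fun K L f => by
            ext i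
            exact adj.counit.naturality (f.f i) }
      left_triangle := by
        ext K i
        change P.map (adj.unit.app (K.X i)) ≫ 𝟙 _ ≫ adj.counit.app (P.obj (K.X i)) = 𝟙 _
        simp
      right_triangle := by
        ext K i
        change adj.unit.app (R.obj (K.X i)) ≫ 𝟙 _ ≫ R.map (adj.counit.app (K.X i)) = 𝟙 _
        simp }

@[simp] theorem cxAdj_unit_f (K : CochainComplex A ℤ) (i : ℤ) :
    ((cxAdj adj).unit.app K).f i = adj.unit.app (K.X i) := rfl

@[simp] theorem cxAdj_counit_f (K : CochainComplex B ℤ) (i : ℤ) :
    ((cxAdj adj).counit.app K).f i = adj.counit.app (K.X i) := rfl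

end Cx

section Der

variable {A : Type u} [Category.{v} A] [Abelian A] [HasDerivedCategory.{w} A]
  {B : Type u'} [Category.{v'} B] [Abelian B] [HasDerivedCategory.{w'} B]
  (P : A ⥤ B) [P.Additive] [PreservesFiniteLimits P] [PreservesFiniteColimits P]
  (R : B ⥤ A) [R.Additive] [PreservesFiniteLimits R] [PreservesFiniteColimits R]

noncomputable instance : CatCommSq (P.mapHomologicalComplex (ComplexShape.up ℤ))
    (DerivedCategory.Q (C := A)) (DerivedCategory.Q (C := B)) P.mapDerivedCategory :=
  ⟨P.mapDerivedCategoryFactors.symm⟩

variable {P R} (adj : P ⊣ R)

/-- adjoint exact functors induce adjoint functors on derived categories -/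
noncomputable def derAdj : P.mapDerivedCategory ⊣ R.mapDerivedCategory :=
  (cxAdj adj).localization (DerivedCategory.Q (C := A))
    (HomologicalComplex.quasiIso A (ComplexShape.up ℤ)) (DerivedCategory.Q (C := B))
    (HomologicalComplex.quasiIso B (ComplexShape.up ℤ)) P.mapDerivedCategory R.mapDerivedCategory

theorem derAdj_unit_app (K : CochainComplex A ℤ) :
    (derAdj adj).unit.app (DerivedCategory.Q.obj K) =
      DerivedCategory.Q.map ((cxAdj adj).unit.app K) ≫
        R.mapDerivedCategoryFactors.inv.app _ ≫
          R.mapDerivedCategory.map (P.mapDerivedCategoryFactors.inv.app K) := by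
  unfold derAdj
  rw [Adjunction.localization_unit_app]
  rfl

theorem derAdj_counit_app (K : CochainComplex B ℤ) :
    (derAdj adj).counit.app (DerivedCategory.Q.obj K) =
      P.mapDerivedCategory.map (R.mapDerivedCategoryFactors.hom.app K) ≫
        P.mapDerivedCategoryFactors.hom.app _ ≫
          DerivedCategory.Q.map ((cxAdj adj).counit.app K) := by
  unfold derAdj
  rw [Adjunction.localization_counit_app]
  rfl

end Der

end BC

end Orl
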