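import Pool.Agent.Work.MP_a6e60d_ag.BC.Adj

/-!
MP_a6e60d_ag, derived base change: the extension of scalars `P : A ⥤ B` and the restriction of
scalars `R : B ⥤ A` for a quadratic extension, on derived categories.
-/

open CategoryTheory Category Limits

set_option linter.unusedSectionVars false

attribute [-instance] CategoryTheory.catToReflQuiver

universe w w' v v' u u' z z'

namespace Orl

namespace BC

/-- Extension `P` and restriction `R` of scalars for a quadratic extension `F` of `k` with a
generator `s`, in abstract form. -/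
structure QuadData (k : Type z) [Field k] (F : Type z') [Field F] [Algebra k F]
    {A : Type u} [Category.{v} A] [Preadditive A] [Linear k A]
    {B : Type u'} [Category.{v'} B] [Preadditive B] [Linear F B] (P : A ⥤ B) (R : B ⥤ A)
    (adj : P ⊣ R) (s : F) where
  /-- the first projection of R P M = M + M -/
  p₁ : P ⋙ R ⟶ 𝟭 A
  /-- the second projection of R P M = M + M -/
  p₂ : P ⋙ R ⟶ 𝟭 A
  /-- R P M is spanned by the unit and its multiple -/
  span : ∀ M : A, (p₁.app M ≫ adj.unit.app M : R.obj (P.obj M) ⟶ R.obj (P.obj M)) +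
    (p₂.app M ≫ adj.unit.app M ≫ R.map (s • 𝟙 (P.obj M)) : R.obj (P.obj M) ⟶ R.obj (P.obj M)) =
      𝟙 (R.obj (P.obj M))
  /-- the natural section of the counit -/
  σ : 𝟭 B ⟶ R ⋙ P
  sec : ∀ N : B, σ.app N ≫ adj.counit.app N = 𝟙 N
  /-- scalars of k -/
  lin : ∀ (c : k) (N : B), R.map ((algebraMap k F c) • 𝟙 N) = c • 𝟙 (R.obj N)

section Der

variable {A : Type u} [Category.{v} A] [Abelian A] [HasDerivedCategory.{w} A]
  {B : Type u'} [Category.{v'} B] [Abelian B] [HasDerivedCategory.{w'} B]
  {P : A ⥤ B} [P.Additive] [PreservesFiniteLimits P] [PreservesFiniteColimits P]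
  {R : B ⥤ A} [R.Additive] [PreservesFiniteLimits R] [PreservesFiniteColimits R]
  {k : Type z} [Field k] {F : Type z'} [Field F] [Algebra k F] [Linear k A] [Linear F B]
  {adj : P ⊣ R} {s : F} (q : QuadData k F P R adj s)

include q

/-- the identity of R P K is spanned by the unit and its multiple, for complexes -/
theorem span_cx (K : CochainComplex A ℤ) :
    ∃ a b : (R.mapHomologicalComplex _).obj ((P.mapHomologicalComplex _).obj K) ⟶ K,
      (a ≫ (cxAdj adj).unit.app K : (R.mapHomologicalComplex (ComplexShape.up ℤ)).obj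
          ((P.mapHomologicalComplex (ComplexShape.up ℤ)).obj K) ⟶
            (R.mapHomologicalComplex (ComplexShape.up ℤ)).obj
          ((P.mapHomologicalComplex (ComplexShape.up ℤ)).obj K)) +
        (b ≫ (cxAdj adj).unit.app K ≫ (R.mapHomologicalComplex (ComplexShape.up ℤ)).map
          (s • 𝟙 ((P.mapHomologicalComplex (ComplexShape.up ℤ)).obj K)) :
          (R.mapHomologicalComplex (ComplexShape.up ℤ)).obj
          ((P.mapHomologicalComplex (ComplexShape.up ℤ)).obj K) ⟶
            (R.mapHomologicalComplex (ComplexShape.up ℤ)).obj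
          ((P.mapHomologicalComplex (ComplexShape.up ℤ)).obj K)) = 𝟙 _ := by
  refine ⟨{ f := fun i => q.p₁.app (K.X i), comm' := fun i j _ => (q.p₁.naturality (K.d i j)).symm },
    { f := fun i => q.p₂.app (K.X i), comm' := fun i j _ => (q.p₂.naturality (K.d i j)).symm }, ?_⟩
  ext i
  exact q.span (K.X i)

theorem sec_cx (K : CochainComplex B ℤ) :
    ∃ a : K ⟶ (P.mapHomologicalComplex _).obj ((R.mapHomologicalComplex _).obj K),
      a ≫ (cxAdj adj).counit.app K = 𝟙 K := by
  refine ⟨{ f := fun i => q.σ.app (K.X i), comm' := fun i j _ => (q.σ.naturality (K.d i j)).symm }, ?_⟩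
  ext i
  exact q.sec (K.X i)

/-- the same on the derived category, for the objects Q K -/
theorem span_Q (K : CochainComplex A ℤ) :
    ∃ a b : R.mapDerivedCategory.obj (P.mapDerivedCategory.obj (DerivedCategory.Q.obj K)) ⟶
      DerivedCategory.Q.obj K,
      (a ≫ (derAdj adj).unit.app (DerivedCategory.Q.obj K) :
          R.mapDerivedCategory.obj (P.mapDerivedCategory.obj (DerivedCategory.Q.obj K)) ⟶
          R.mapDerivedCategory.obj (P.mapDerivedCategory.obj (DerivedCategory.Q.obj K))) +
        (b ≫ (derAdj adj).unit.app (DerivedCategory.Q.obj K) ≫ R.mapDerivedCategory.map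
          (s • 𝟙 (P.mapDerivedCategory.obj (DerivedCategory.Q.obj K))) :
          R.mapDerivedCategory.obj (P.mapDerivedCategory.obj (DerivedCategory.Q.obj K)) ⟶
          R.mapDerivedCategory.obj (P.mapDerivedCategory.obj (DerivedCategory.Q.obj K))) =
            𝟙 _ := by
  obtain ⟨a, b, h⟩ := span_cx q K
  let E : R.mapDerivedCategory.obj (P.mapDerivedCategory.obj (DerivedCategory.Q.obj K)) ≅
      DerivedCategory.Q.obj ((R.mapHomologicalComplex _).obj
        ((P.mapHomologicalComplex (ComplexShape.up ℤ)).obj K)) :=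
    R.mapDerivedCategory.mapIso (P.mapDerivedCategoryFactors.app K) ≪≫
      R.mapDerivedCategoryFactors.app _
  have hu : (derAdj adj).unit.app (DerivedCategory.Q.obj K) =
      DerivedCategory.Q.map ((cxAdj adj).unit.app K) ≫ E.inv := derAdj_unit_app adj K
  have hs : E.inv ≫ R.mapDerivedCategory.map
      (s • 𝟙 (P.mapDerivedCategory.obj (DerivedCategory.Q.obj K))) =
      DerivedCategory.Q.map ((R.mapHomologicalComplex (ComplexShape.up ℤ)).map
          (s • 𝟙 ((P.mapHomologicalComplex (ComplexShape.up ℤ)).obj K))) ≫ E.inv := by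
    have h1 : (P.mapDerivedCategoryFactors.inv.app K) ≫
        (s • 𝟙 (P.mapDerivedCategory.obj (DerivedCategory.Q.obj K))) =
        DerivedCategory.Q.map (s • 𝟙 ((P.mapHomologicalComplex (ComplexShape.up ℤ)).obj K)) ≫
          P.mapDerivedCategoryFactors.inv.app K := by
      rw [Functor.map_smul, CategoryTheory.Functor.map_id, Linear.smul_comp, Linear.comp_smul,
        id_comp]
      erw [comp_id]
    change (R.mapDerivedCategoryFactors.inv.app _ ≫ R.mapDerivedCategory.map
      (P.mapDerivedCategoryFactors.inv.app K)) ≫ _ = _ ≫ (R.mapDerivedCategoryFactors.inv.app _ ≫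
        R.mapDerivedCategory.map (P.mapDerivedCategoryFactors.inv.app K))
    rw [assoc, ← Functor.map_comp, h1, Functor.map_comp]
    have h2 := R.mapDerivedCategoryFactors.inv.naturality
      (s • 𝟙 ((P.mapHomologicalComplex (ComplexShape.up ℤ)).obj K))
    simp only [Functor.comp_map] at h2
    rw [← assoc, ← assoc, ← h2]
  refine ⟨E.hom ≫ DerivedCategory.Q.map a, E.hom ≫ DerivedCategory.Q.map b, ?_⟩
  rw [hu]
  have h3 : (DerivedCategory.Q.map ((cxAdj adj).unit.app K) ≫ E.inv) ≫
      R.mapDerivedCategory.map (s • 𝟙 (P.mapDerivedCategory.obj (DerivedCategory.Q.obj K))) =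
      DerivedCategory.Q.map ((cxAdj adj).unit.app K ≫
        (R.mapHomologicalComplex (ComplexShape.up ℤ)).map
          (s • 𝟙 ((P.mapHomologicalComplex (ComplexShape.up ℤ)).obj K))) ≫ E.inv := by
    rw [assoc, hs, ← assoc, ← Functor.map_comp]
  rw [h3]
  have h4 := congrArg (fun x => E.hom ≫ DerivedCategory.Q.map x ≫ E.inv) h
  simp only [Functor.map_add, Functor.map_comp, Preadditive.add_comp, Preadditive.comp_add,
    CategoryTheory.Functor.map_id, id_comp, Iso.hom_inv_id] at h4
  simp only [Functor.map_comp, assoc] at h4 ⊢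
  exact h4

/-- every morphism between extended objects is a + s b -/
theorem exists_map_add (X Y : DerivedCategory A)
    (f : P.mapDerivedCategory.obj X ⟶ P.mapDerivedCategory.obj Y) :
    ∃ a b : X ⟶ Y, f = P.mapDerivedCategory.map a + s • P.mapDerivedCategory.map b := by
  have key : ∀ (K : CochainComplex A ℤ)
      (f : P.mapDerivedCategory.obj X ⟶ P.mapDerivedCategory.obj (DerivedCategory.Q.obj K)),
      ∃ a b : X ⟶ DerivedCategory.Q.obj K,
        f = P.mapDerivedCategory.map a + s • P.mapDerivedCategory.map b := by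
    intro K f
    obtain ⟨a, b, h⟩ := span_Q q K
    obtain ⟨g, hf⟩ : ∃ g : X ⟶ R.mapDerivedCategory.obj
        (P.mapDerivedCategory.obj (DerivedCategory.Q.obj K)),
        f = P.mapDerivedCategory.map g ≫ (derAdj adj).counit.app _ := by
      refine ⟨(derAdj adj).unit.app X ≫ R.mapDerivedCategory.map f, ?_⟩
      simp only [Functor.map_comp, assoc]
      have h1 := (derAdj adj).counit.naturality f
      simp only [Functor.comp_map, Functor.id_map] at h1
      erw [h1]
      have h2 := (derAdj adj).left_triangle_components X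
      rw [← assoc]
      erw [h2]
      exact (id_comp f).symm
    have hg : g = ((g ≫ a) ≫ (derAdj adj).unit.app (DerivedCategory.Q.obj K) :
          X ⟶ R.mapDerivedCategory.obj (P.mapDerivedCategory.obj (DerivedCategory.Q.obj K))) +
        ((g ≫ b) ≫ (derAdj adj).unit.app (DerivedCategory.Q.obj K) ≫ R.mapDerivedCategory.map
          (s • 𝟙 (P.mapDerivedCategory.obj (DerivedCategory.Q.obj K))) :
          X ⟶ R.mapDerivedCategory.obj (P.mapDerivedCategory.obj (DerivedCategory.Q.obj K))) := by
      have h1 := congrArg (fun x => g ≫ x) h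
      simp only [Preadditive.comp_add, comp_id] at h1
      rw [assoc, assoc]
      exact h1.symm
    refine ⟨g ≫ a, g ≫ b, ?_⟩
    have h2 := (derAdj adj).left_triangle_components (DerivedCategory.Q.obj K)
    have h3 := (derAdj adj).counit.naturality
      (s • 𝟙 (P.mapDerivedCategory.obj (DerivedCategory.Q.obj K)))
    simp only [Functor.comp_map, Functor.id_map] at h3
    have e1 : P.mapDerivedCategory.map ((g ≫ a) ≫
        (derAdj adj).unit.app (DerivedCategory.Q.obj K)) ≫ (derAdj adj).counit.app _ =
        P.mapDerivedCategory.map (g ≫ a) := by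
      rw [Functor.map_comp, assoc]
      erw [h2]
      exact comp_id _
    have e2 : P.mapDerivedCategory.map ((g ≫ b) ≫
        (derAdj adj).unit.app (DerivedCategory.Q.obj K) ≫ R.mapDerivedCategory.map
          (s • 𝟙 (P.mapDerivedCategory.obj (DerivedCategory.Q.obj K)))) ≫
          (derAdj adj).counit.app _ = s • P.mapDerivedCategory.map (g ≫ b) := by
      have h5 : P.mapDerivedCategory.map ((derAdj adj).unit.app (DerivedCategory.Q.obj K) ≫
          R.mapDerivedCategory.map
            (s • 𝟙 (P.mapDerivedCategory.obj (DerivedCategory.Q.obj K)))) ≫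
          (derAdj adj).counit.app _ =
          s • 𝟙 (P.mapDerivedCategory.obj (DerivedCategory.Q.obj K)) := by
        rw [Functor.map_comp, assoc, h3, ← assoc, h2]
        exact id_comp _
      rw [Functor.map_comp, assoc, h5, Linear.comp_smul, comp_id]
    rw [hf]
    conv_lhs => rw [hg]
    rw [Functor.map_add, Preadditive.add_comp]
    exact congrArg₂ (· + ·) e1 e2
  obtain ⟨a, b, h⟩ := key (DerivedCategory.Q.objPreimage Y)
    (f ≫ P.mapDerivedCategory.map (DerivedCategory.Q.objObjPreimageIso Y).inv)
  refine ⟨a ≫ (DerivedCategory.Q.objObjPreimageIso Y).hom,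
    b ≫ (DerivedCategory.Q.objObjPreimageIso Y).hom, ?_⟩
  have h1 := congrArg (fun x => x ≫
    P.mapDerivedCategory.map (DerivedCategory.Q.objObjPreimageIso Y).hom) h
  simp only [assoc, ← Functor.map_comp, Iso.inv_hom_id, Preadditive.add_comp,
    Linear.smul_comp, CategoryTheory.Functor.map_id, comp_id] at h1
  exact h1

/-- the counit has a section -/
theorem exists_section (N : DerivedCategory B) :
    ∃ a : N ⟶ P.mapDerivedCategory.obj (R.mapDerivedCategory.obj N),
      a ≫ (derAdj adj).counit.app N = 𝟙 N := by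
  have key : ∀ K : CochainComplex B ℤ, ∃ a : DerivedCategory.Q.obj K ⟶
      P.mapDerivedCategory.obj (R.mapDerivedCategory.obj (DerivedCategory.Q.obj K)),
      a ≫ (derAdj adj).counit.app (DerivedCategory.Q.obj K) = 𝟙 _ := by
    intro K
    obtain ⟨a, ha⟩ := sec_cx q K
    refine ⟨DerivedCategory.Q.map a ≫ P.mapDerivedCategoryFactors.inv.app _ ≫
      P.mapDerivedCategory.map (R.mapDerivedCategoryFactors.inv.app K), ?_⟩
    rw [derAdj_counit_app]
    simp only [assoc]
    rw [← Functor.map_comp_assoc]
    simp only [Iso.inv_hom_id_app]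
    erw [CategoryTheory.Functor.map_id]
    rw [id_comp]
    erw [Iso.inv_hom_id_app_assoc]
    rw [← Functor.map_comp, ha, CategoryTheory.Functor.map_id]
  obtain ⟨a, ha⟩ := key (DerivedCategory.Q.objPreimage N)
  let e := DerivedCategory.Q.objObjPreimageIso N
  refine ⟨e.inv ≫ a ≫ P.mapDerivedCategory.map (R.mapDerivedCategory.map e.hom), ?_⟩
  have h1 := (derAdj adj).counit.naturality e.hom
  simp only [Functor.comp_map, Functor.id_map] at h1
  rw [assoc, assoc, h1, ← assoc a, ha]
  erw [id_comp]
  exact e.inv_hom_id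

/-- the retraction -/
theorem exists_retract (N : DerivedCategory B) :
    Nonempty (Retract N (P.mapDerivedCategory.obj (R.mapDerivedCategory.obj N))) := by
  obtain ⟨a, ha⟩ := exists_section q N
  exact ⟨⟨a, (derAdj adj).counit.app N, ha⟩⟩

theorem faithful_R : R.mapDerivedCategory.Faithful where
  map_injective {N N'} f g h := by
    obtain ⟨a, ha⟩ := exists_section q N
    have h1 : ∀ x : N ⟶ N', x = a ≫ P.mapDerivedCategory.map (R.mapDerivedCategory.map x) ≫
        (derAdj adj).counit.app N' := by
      intro x
      have h2 := (derAdj adj).counit.naturality x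
      simp only [Functor.comp_map, Functor.id_map] at h2
      rw [h2, ← assoc, ha]
      exact (id_comp x).symm
    rw [h1 f, h1 g, h]

/-- scalars of k -/
theorem map_algebraMap_smul {N N' : DerivedCategory B} (c : k) (f : N ⟶ N') :
    R.mapDerivedCategory.map ((algebraMap k F c) • f) = c • R.mapDerivedCategory.map f := by
  have key : ∀ K : CochainComplex B ℤ, R.mapDerivedCategory.map
      ((algebraMap k F c) • 𝟙 (DerivedCategory.Q.obj K)) = c • 𝟙 _ := by
    intro K
    have h1 : (R.mapHomologicalComplex (ComplexShape.up ℤ)).map ((algebraMap k F c) • 𝟙 K) =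
        c • 𝟙 _ := by
      ext i
      exact q.lin c (K.X i)
    have h2 := R.mapDerivedCategoryFactors.hom.naturality ((algebraMap k F c) • 𝟙 K)
    simp only [Functor.comp_map] at h2
    have h3 : DerivedCategory.Q.map ((algebraMap k F c) • 𝟙 K) = (algebraMap k F c) • 𝟙 _ := by
      rw [Functor.map_smul, CategoryTheory.Functor.map_id]
    have h4 : DerivedCategory.Q.map
        (c • 𝟙 ((R.mapHomologicalComplex (ComplexShape.up ℤ)).obj K)) = c • 𝟙 _ := by
      rw [Functor.map_smul, CategoryTheory.Functor.map_id]
    rw [h1, h3, h4, Linear.comp_smul] at h2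
    rw [← cancel_mono (R.mapDerivedCategoryFactors.hom.app K), Linear.smul_comp]
    refine h2.trans ?_
    erw [comp_id, id_comp]
  have key2 : R.mapDerivedCategory.map ((algebraMap k F c) • 𝟙 N) = c • 𝟙 _ := by
    let e := DerivedCategory.Q.objObjPreimageIso N
    have h1 : (algebraMap k F c) • 𝟙 N =
        e.inv ≫ ((algebraMap k F c) • 𝟙 (DerivedCategory.Q.obj (DerivedCategory.Q.objPreimage N))) ≫
          e.hom := by
      simp
    rw [h1, Functor.map_comp, Functor.map_comp, key]
    simp only [Linear.smul_comp, Linear.comp_smul, id_comp, ← Functor.map_comp, Iso.inv_hom_id,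
      CategoryTheory.Functor.map_id]
  have h1 : (algebraMap k F c) • f = ((algebraMap k F c) • 𝟙 N) ≫ f := by simp
  rw [h1, Functor.map_comp, key2, Linear.smul_comp, id_comp]

end Der

section Eqv

variable {B : Type u'} [Category.{v'} B] [Abelian B] [HasDerivedCategory.{w'} B]
  {A : Type u} [Category.{v} A] [Abelian A] [HasDerivedCategory.{w} A]
  {P : A ⥤ B} [P.Additive] [PreservesFiniteLimits P] [PreservesFiniteColimits P]
  {R : B ⥤ A} [R.Additive] [PreservesFiniteLimits R] [PreservesFiniteColimits R]

/-- if the unit is an isomorphism, it is one on the derived categories -/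
theorem isIso_derAdj_unit (adj : P ⊣ R) [IsIso adj.unit] : IsIso (derAdj adj).unit := by
  have key : ∀ K : CochainComplex A ℤ, IsIso ((derAdj adj).unit.app (DerivedCategory.Q.obj K)) := by
    intro K
    rw [derAdj_unit_app]
    have : IsIso ((cxAdj adj).unit.app K) := by
      have : ∀ i, IsIso (((cxAdj adj).unit.app K).f i) := fun i =>
        inferInstanceAs (IsIso (adj.unit.app (K.X i)))
      exact HomologicalComplex.Hom.isIso_of_components _
    infer_instance
  have key2 : ∀ X : DerivedCategory A, IsIso ((derAdj adj).unit.app X) := by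
    intro X
    let e := DerivedCategory.Q.objObjPreimageIso X
    have h1 := (derAdj adj).unit.naturality e.hom
    have := key (DerivedCategory.Q.objPreimage X)
    have h2 : IsIso ((𝟭 (DerivedCategory A)).map e.hom ≫ (derAdj adj).unit.app X) := by
      rw [h1]
      infer_instance
    exact IsIso.of_isIso_comp_left ((𝟭 (DerivedCategory A)).map e.hom) _
  exact NatIso.isIso_of_isIso_app _

variable (τ : B ⥤ B) [τ.Additive] [τ.IsEquivalence] [PreservesFiniteLimits τ]
  [PreservesFiniteColimits τ]

theorem fullyFaithful_tau : τ.mapDerivedCategory.Full ∧ τ.mapDerivedCategory.Faithful := by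
  let e := τ.asEquivalence
  have : e.functor.Additive := inferInstanceAs τ.Additive
  have : e.inverse.Additive := inferInstance
  have : PreservesFiniteLimits e.functor := inferInstanceAs (PreservesFiniteLimits τ)
  have : PreservesFiniteColimits e.functor := inferInstanceAs (PreservesFiniteColimits τ)
  have : IsIso (derAdj e.toAdjunction).unit := by
    have : IsIso e.toAdjunction.unit := inferInstanceAs (IsIso e.unitIso.hom)
    exact isIso_derAdj_unit e.toAdjunction
  have h := (derAdj e.toAdjunction).fullyFaithfulLOfIsIsoUnit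
  exact ⟨h.full, h.faithful⟩

/-- extended objects are stable under the conjugation -/
theorem exists_iso_tau (φ : P ⋙ τ ≅ P) (X : DerivedCategory A) :
    Nonempty (τ.mapDerivedCategory.obj (P.mapDerivedCategory.obj X) ≅
      P.mapDerivedCategory.obj X) := by
  let K := DerivedCategory.Q.objPreimage X
  let e : DerivedCategory.Q.obj K ≅ X := DerivedCategory.Q.objObjPreimageIso X
  let i : (τ.mapHomologicalComplex (ComplexShape.up ℤ)).obj
      ((P.mapHomologicalComplex (ComplexShape.up ℤ)).obj K) ≅
      (P.mapHomologicalComplex (ComplexShape.up ℤ)).obj K :=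
    HomologicalComplex.Hom.isoOfComponents (fun j => φ.app (K.X j))
      (fun j l _ => (φ.hom.naturality (K.d j l)).symm)
  exact ⟨(τ.mapDerivedCategory.mapIso (P.mapDerivedCategory.mapIso e.symm)) ≪≫
    τ.mapDerivedCategory.mapIso (P.mapDerivedCategoryFactors.app K) ≪≫
    τ.mapDerivedCategoryFactors.app _ ≪≫ DerivedCategory.Q.mapIso i ≪≫
    (P.mapDerivedCategoryFactors.app K).symm ≪≫ P.mapDerivedCategory.mapIso e⟩

end Eqv

end BC

end Orl
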