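import Pool.Agent.Work.MP_a6e60d_ag.BC.Quad
import Pool.Agent.Work.MP_a6e60d_ag.Gal.Ind

/-!
MP_a6e60d_ag, base change, 5: the conjugation of the F-structure by an automorphism of F over k.
-/

open CategoryTheory Category Limits

set_option linter.unusedSectionVars false

attribute [-instance] CategoryTheory.catToReflQuiver

universe w w' v v' u u' z z' z''

namespace Orl

namespace BC

open LF

section Tau

variable {k : Type z} {F : Type z'} [Field k] [Field F] [Algebra k F]
variable (C : Type u) [Category.{v} C]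

section pre

variable [Preadditive C] [Linear k C]

/-- conjugation of the F-structure -/
abbrev tau (g : F ≃ₐ[k] F) : ModObj k F C ⥤ ModObj k F C := Gal.resF C (g : F →ₐ[k] F)

variable {C}

theorem act_tau (g : F ≃ₐ[k] F) (M : ModObj k F C) (e : F) :
    ((tau C g).obj M).act e = M.act (g e) := rfl

theorem homPt_tau_map (g : F ≃ₐ[k] F) {M N : ModObj k F C} (f : M ⟶ N) :
    ModObj.homPt ((tau C g).map f) = ModObj.homPt f := rfl

/-- an isomorphism from the identity of the underlying objects -/
def isoPt {M N : ModObj k F C} (f : M.pt ≅ N.pt) (h : ∀ e, M.act e ≫ f.hom = f.hom ≫ N.act e) :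
    M ≅ N where
  hom := ModObj.homMk f.hom h
  inv := ModObj.homMk f.inv (fun e => by
    rw [Iso.eq_inv_comp, ← assoc, ← h, assoc, Iso.hom_inv_id, comp_id])
  hom_inv_id := ModObj.hom_ext f.hom_inv_id
  inv_hom_id := ModObj.hom_ext f.inv_hom_id

variable (C)

/-- conjugation is an equivalence -/
def tauEquiv (g : F ≃ₐ[k] F) : ModObj k F C ≌ ModObj k F C where
  functor := tau C g
  inverse := tau C g.symm
  unitIso := NatIso.ofComponents (fun M => isoPt (M := M)
    (N := (tau C g.symm).obj ((tau C g).obj M)) (Iso.refl M.pt) (fun e => by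
      rw [act_tau, act_tau, AlgEquiv.apply_symm_apply]
      exact (comp_id _).trans (id_comp _).symm)) (fun {M N} f => ModObj.hom_ext (by
        change ModObj.homPt f ≫ 𝟙 _ = 𝟙 _ ≫ ModObj.homPt f
        rw [comp_id, id_comp]))
  counitIso := NatIso.ofComponents (fun M => isoPt (N := M)
    (M := (tau C g).obj ((tau C g.symm).obj M)) (Iso.refl M.pt) (fun e => by
      rw [act_tau, act_tau, AlgEquiv.symm_apply_apply]
      exact (comp_id _).trans (id_comp _).symm)) (fun {M N} f => ModObj.hom_ext (by
        change ModObj.homPt f ≫ 𝟙 _ = 𝟙 _ ≫ ModObj.homPt f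
        rw [comp_id, id_comp]))
  functor_unitIso_comp M := ModObj.hom_ext (by
    change 𝟙 M.pt ≫ 𝟙 M.pt = 𝟙 M.pt
    rw [comp_id])

instance (g : F ≃ₐ[k] F) : (tau C g).IsEquivalence := (tauEquiv C g).isEquivalence_functor

end pre

section res

variable [Preadditive C] [Linear k C] {K : Type z''} [Field K] [Algebra k K] [Algebra F K]
  [IsScalarTower k F K]

variable {C}

/-- conjugation and restriction of scalars -/
def tauRes (g : K ≃ₐ[k] K) (g₀ : F ≃ₐ[k] F)
    (h : ∀ e, algebraMap F K (g₀ e) = g (algebraMap F K e)) (M : ModObj k K C) :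
    (tau C g₀).obj ((Gal.resE k F K C).obj M) ≅
      (Gal.resE k F K C).obj ((Gal.resF C (g : K →ₐ[k] K)).obj M) :=
  isoPt (Iso.refl M.pt) (fun e => by
    change M.act (algebraMap F K (g₀ e)) ≫ 𝟙 _ = 𝟙 _ ≫ M.act (g (algebraMap F K e))
    rw [h, comp_id, id_comp])

end res

section quad

variable [Abelian C] [Linear k C] {s : F} {c : k} (b : QuadBasis k F s c)

variable {C}

theorem QuadBasis.x_conj (g : F ≃ₐ[k] F) (hg : g s = -s) (e : F) : b.x (g e) = b.x e := by
  have h1 : g e = algebraMap k F (b.x e) + algebraMap k F (-b.y e) * s := by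
    conv_lhs => rw [b.eq e]
    rw [map_add, map_mul, AlgEquiv.commutes, AlgEquiv.commutes, hg, map_neg]
    ring
  rw [h1, b.x_mk]

theorem QuadBasis.y_conj (g : F ≃ₐ[k] F) (hg : g s = -s) (e : F) : b.y (g e) = -b.y e := by
  have h1 : g e = algebraMap k F (b.x e) + algebraMap k F (-b.y e) * s := by
    conv_lhs => rw [b.eq e]
    rw [map_add, map_mul, AlgEquiv.commutes, AlgEquiv.commutes, hg, map_neg]
    ring
  rw [h1, b.y_mk]

/-- m + n s maps to m - n s -/
noncomputable def conjPt (M : C) : M ⊞ M ≅ M ⊞ M where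
  hom := biprod.map (𝟙 M) (-𝟙 M)
  inv := biprod.map (𝟙 M) (-𝟙 M)
  hom_inv_id := by apply biprod.hom_ext' <;> simp
  inv_hom_id := by apply biprod.hom_ext' <;> simp

theorem mulS_conjPt (M : C) :
    mulS C c M ≫ (conjPt M).hom = -((conjPt M).hom ≫ mulS C c M) := by
  apply biprod.hom_ext' <;> apply biprod.hom_ext <;> simp [mulS, conjPt]

/-- extended objects are isomorphic to their conjugates -/
noncomputable def extTau (g : F ≃ₐ[k] F) (hg : g s = -s) : extF b C ⋙ tau C g ≅ extF b C :=
  NatIso.ofComponents (fun M => isoPt (M := (tau C g).obj ((extF b C).obj M))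
    (N := (extF b C).obj M) (conjPt M) (fun e => by
      change extAct b M (g e) ≫ (conjPt M).hom = (conjPt M).hom ≫ extAct b M e
      rw [extAct, extAct, b.x_conj g hg, b.y_conj g hg, Preadditive.add_comp,
        Preadditive.comp_add, Linear.smul_comp, Linear.smul_comp, mulS_conjPt, id_comp,
        Linear.comp_smul, Linear.comp_smul, comp_id, neg_smul, smul_neg, neg_neg]))
    (fun {M N} f => ModObj.hom_ext (by
      change biprod.map f f ≫ (conjPt N).hom = (conjPt M).hom ≫ biprod.map f f
      apply biprod.hom_ext' <;> apply biprod.hom_ext <;> simp [conjPt]))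

end quad

end Tau

end BC

end Orl
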