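import Pool.Agent.Work.MP_a6e60d_ag.BC.Perf
import Pool.Agent.Work.MP_a6e60d_ag.BC.Tau
import Pool.Agent.Work.MP_a6e60d_ag.BI.Single

/-!
MP_a6e60d_ag, base change, 6: Theorem B for F-objects of a k-linear abelian category; classes of
objects in the Grothendieck group.
-/

open CategoryTheory Category Limits Pretriangulated Module ZeroObject

set_option linter.unusedSectionVars false

attribute [-instance] CategoryTheory.catToReflQuiver

universe w w' v v' u u' z z' z''

namespace Orl

open OrlNum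

section Cls

theorem finrank_sg' {B : Type u} [Category.{v} B] [Abelian B] [HasDerivedCategory.{w} B]
    (F : Type z) [Field F] [Linear F B] (X Y : B) :
    finrank F (sg X ⟶ sg Y) = finrank F (X ⟶ Y) := by
  let e : (X ⟶ Y) ≃ₗ[F] (sg X ⟶ sg Y) :=
    LinearEquiv.ofBijective ((DerivedCategory.singleFunctor B 0).mapLinearMap F)
      ⟨(DerivedCategory.singleFunctor B 0).map_injective,
        (DerivedCategory.singleFunctor B 0).map_surjective⟩
  exact e.finrank_eq.symm

variable {B : Type u} [Category.{v} B] [Abelian B] [HasDerivedCategory.{w} B]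
  (Pf : ObjectProperty (DerivedCategory B)) [Pf.IsTriangulated] [Pf.IsClosedUnderIsomorphisms]

open Classical in
/-- the class of an object of an abelian category in the Grothendieck group of a triangulated
subcategory of its derived category (0 if the object is not there) -/
noncomputable def clsB (X : B) : K0 Pf.FullSubcategory :=
  if h : Pf (sg X) then cls (⟨sg X, h⟩ : Pf.FullSubcategory) else 0

variable {Pf}

theorem clsB_eq {X : B} (h : Pf (sg X)) : clsB Pf X = cls (⟨sg X, h⟩ : Pf.FullSubcategory) :=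
  dif_pos h

theorem clsB_eq_of_iso {X : B} {Y : DerivedCategory B} (hY : Pf Y) (e : Y ≅ sg X) :
    cls (⟨Y, hY⟩ : Pf.FullSubcategory) = clsB Pf X := by
  have h : Pf (sg X) := Pf.prop_of_iso e hY
  rw [clsB_eq h]
  exact cls_iso (Pf.isoMk e)

theorem clsB_iso {X Y : B} (e : X ≅ Y) : clsB Pf X = clsB Pf Y := by
  have e' : sg X ≅ sg Y := (DerivedCategory.singleFunctor B 0).mapIso e
  by_cases h : Pf (sg X)
  · rw [clsB_eq h]
    exact clsB_eq_of_iso h e'
  · have h' : ¬ Pf (sg Y) := fun h' => h (Pf.prop_of_iso e'.symm h')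
    unfold clsB
    rw [dif_neg h, dif_neg h']

theorem prop_mid {S : ShortComplex B} (hS : S.ShortExact) (h1 : Pf (sg S.X₁))
    (h3 : Pf (sg S.X₃)) : Pf (sg S.X₂) :=
  Pf.ext_of_isTriangulatedClosed₂ _ hS.singleTriangle_distinguished h1 h3

theorem prop_left {S : ShortComplex B} (hS : S.ShortExact) (h2 : Pf (sg S.X₂))
    (h3 : Pf (sg S.X₃)) : Pf (sg S.X₁) :=
  Pf.ext_of_isTriangulatedClosed₁ _ hS.singleTriangle_distinguished h2 h3

theorem prop_right {S : ShortComplex B} (hS : S.ShortExact) (h1 : Pf (sg S.X₁))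
    (h2 : Pf (sg S.X₂)) : Pf (sg S.X₃) :=
  Pf.ext_of_isTriangulatedClosed₃ _ hS.singleTriangle_distinguished h1 h2

/-- additivity on short exact sequences -/
theorem clsB_ses {S : ShortComplex B} (hS : S.ShortExact) (h1 : Pf (sg S.X₁))
    (h3 : Pf (sg S.X₃)) : clsB Pf S.X₂ = clsB Pf S.X₁ + clsB Pf S.X₃ := by
  have h2 : Pf (sg S.X₂) := prop_mid hS h1 h3
  rw [clsB_eq h1, clsB_eq h2, clsB_eq h3]
  let Δ : Triangle Pf.FullSubcategory := Triangle.mk (X := ⟨sg S.X₁, h1⟩) (Y := ⟨sg S.X₂, h2⟩)
    (Z := ⟨sg S.X₃, h3⟩)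
    (ObjectProperty.homMk ((DerivedCategory.singleFunctor B 0).map S.f))
    (ObjectProperty.homMk ((DerivedCategory.singleFunctor B 0).map S.g))
    (ObjectProperty.homMk (hS.singleδ ≫
      (Pf.ι.commShiftIso (1 : ℤ)).inv.app (⟨sg S.X₁, h1⟩ : Pf.FullSubcategory)))
  have hΔ : Δ ∈ distTriang Pf.FullSubcategory := by
    change Pf.ι.mapTriangle.obj Δ ∈ distTriang _
    refine isomorphic_distinguished _ hS.singleTriangle_distinguished _ ?_
    refine Triangle.isoMk _ _ (Iso.refl _) (Iso.refl _) (Iso.refl _) ?_ ?_ ?_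
    · change (DerivedCategory.singleFunctor B 0).map S.f ≫ 𝟙 _ = 𝟙 _ ≫ _
      rw [comp_id, id_comp]
      rfl
    · change (DerivedCategory.singleFunctor B 0).map S.g ≫ 𝟙 _ = 𝟙 _ ≫ _
      rw [comp_id, id_comp]
      rfl
    · have e1 : (hS.singleδ ≫ (Pf.ι.commShiftIso (1 : ℤ)).inv.app
          (⟨sg S.X₁, h1⟩ : Pf.FullSubcategory)) ≫ (Pf.ι.commShiftIso (1 : ℤ)).hom.app
          (⟨sg S.X₁, h1⟩ : Pf.FullSubcategory) = hS.singleδ := by
        rw [assoc]
        erw [Iso.inv_hom_id_app]
        exact comp_id _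
      have e2 : (shiftFunctor (DerivedCategory B) (1 : ℤ)).map (𝟙 (sg S.X₁)) = 𝟙 _ :=
        CategoryTheory.Functor.map_id _ _
      have e3 : ((hS.singleδ ≫ (Pf.ι.commShiftIso (1 : ℤ)).inv.app
          (⟨sg S.X₁, h1⟩ : Pf.FullSubcategory)) ≫ (Pf.ι.commShiftIso (1 : ℤ)).hom.app
          (⟨sg S.X₁, h1⟩ : Pf.FullSubcategory)) ≫
            (shiftFunctor (DerivedCategory B) (1 : ℤ)).map (𝟙 (sg S.X₁)) =
          𝟙 _ ≫ hS.singleδ := by
        rw [e2, e1]
        exact (comp_id _).trans (id_comp _).symm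
      exact e3
  exact cls_tri Δ hΔ

theorem clsB_biprod {X Y : B} (hX : Pf (sg X)) (hY : Pf (sg Y)) :
    clsB Pf (X ⊞ Y) = clsB Pf X + clsB Pf Y := by
  let S : ShortComplex B := ShortComplex.mk (biprod.inl : X ⟶ X ⊞ Y) biprod.snd (by simp)
  have hS : S.ShortExact := (ShortComplex.Splitting.ofHasBinaryBiproduct X Y).shortExact
  exact clsB_ses hS hX hY

/-- additivity on bicartesian squares, written as short exact sequences with a biproduct -/
theorem clsB_square {S : ShortComplex B} {X Y : B} (e : S.X₂ ≅ X ⊞ Y) (hS : S.ShortExact)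
    (h1 : Pf (sg S.X₁)) (hX : Pf (sg X)) (hY : Pf (sg Y)) :
    clsB Pf S.X₁ + clsB Pf S.X₃ = clsB Pf X + clsB Pf Y := by
  have h2 : Pf (sg (X ⊞ Y)) := prop_mid
    (ShortComplex.Splitting.ofHasBinaryBiproduct X Y).shortExact hX hY
  have h2' : Pf (sg S.X₂) :=
    Pf.prop_of_iso ((DerivedCategory.singleFunctor B 0).mapIso e.symm) h2
  rw [← clsB_biprod hX hY, ← clsB_iso e, clsB_ses hS h1 (prop_right hS h1 h2')]

end Cls

namespace BC

section Gen

variable {A : Type u} [Category.{v} A] [Abelian A] [HasDerivedCategory.{w} A]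
  {B : Type u'} [Category.{v'} B] [Abelian B] [HasDerivedCategory.{w'} B]
  {P : A ⥤ B} [P.Additive] [PreservesFiniteLimits P] [PreservesFiniteColimits P]
  {R : B ⥤ A} [R.Additive] [PreservesFiniteLimits R] [PreservesFiniteColimits R]
  {k : Type z} [Field k] {F : Type z'} [Field F] [Algebra k F] [Linear k A] [Linear F B]
  {adj : P ⊣ R} {s : F} (q : QuadData k F P R adj s)
  (Pf : ObjectProperty (DerivedCategory A))

include q in
/-- generation over F from generation over k -/
theorem isZero_of_gen {ι : Type*} {G : ι → DerivedCategory A} (hG : FullIn Pf G) {κ : Type*}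
    (D : κ → DerivedCategory B)
    (hDG : ∀ Q : ObjectProperty (DerivedCategory B), Q.IsTriangulated →
      Q.IsStableUnderRetracts → (∀ i, Q (D i)) → ∀ j, Q (P.mapDerivedCategory.obj (G j)))
    (N : DerivedCategory B) (hN : Up R Pf N) (ho : ∀ i, Orth (D i) N) : IsZero N := by
  have h1 := hDG (orthProp N) inferInstance inferInstance ho
  have h2 : Orth (P.mapDerivedCategory.obj (R.mapDerivedCategory.obj N)) N :=
    hG (orthPropMap P.mapDerivedCategory N) inferInstance inferInstance h1 _ hN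
  obtain ⟨r⟩ := exists_retract q N
  exact isZero_of_orth_self (h2.retract r (Retract.refl N))

end Gen

section Main

open LF

variable {k : Type z} {F : Type z'} [Field k] [Field F] [Algebra k F] {s : F} {c : k}
  (b : QuadBasis k F s c)
variable {C : Type u} [Category.{v} C] [Abelian C] [Linear k C] [HasDerivedCategory.{w} C]
  [HasDerivedCategory.{w'} (ModObj k F C)]

/-- the objects of the derived category of F-objects whose underlying object is in Pf -/
abbrev UpF (F : Type z') [Field F] [Algebra k F] [HasDerivedCategory.{w'} (ModObj k F C)]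
    (Pf : ObjectProperty (DerivedCategory C)) :
    ObjectProperty (DerivedCategory (ModObj k F C)) := Up (resF k F C) Pf

theorem upF_sg (Pf : ObjectProperty (DerivedCategory C)) [Pf.IsClosedUnderIsomorphisms]
    (M : ModObj k F C) : UpF F Pf (sg M) ↔ Pf (sg M.pt) := by
  have e : (resF k F C).mapDerivedCategory.obj (sg M) ≅ sg M.pt :=
    ((resF k F C).mapDerivedCategorySingleFunctor 0).app M
  exact ⟨fun h => Pf.prop_of_iso e h, fun h => Pf.prop_of_iso e.symm h⟩

include b in
/-- **Theorem B** for a quadratic extension F of k: if the F-objects of C have the explicit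
collection `D` with one member of dimension 3 and one relation, then there is no full
semi-exceptional collection in the subcategory `Pf` of `D(C)` generated by the objects `G`. -/
theorem no_collection (h2 : (2 : F) ≠ 0) (g : F ≃ₐ[k] F) (hg : g s = -s)
    (Pf : ObjectProperty (DerivedCategory C)) [Pf.IsTriangulated] [Pf.IsStableUnderRetracts]
    (hb : Pf ≤ (DerivedCategory.TStructure.t (C := C)).bounded)
    (hf : HomFin k Pf.FullSubcategory) {ι : Type*} {G : ι → DerivedCategory C}
    (hG : FullIn Pf G) {m : ℕ} (D : Fin m → ModObj k F C) (hD : ∀ i, Pf (sg (D i).pt))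
    (hdiv : ∀ i, Divn (sg (D i))) (horth : ∀ i j, i < j → Orth (sg (D i)) (sg (D j)))
    (hgen : ∀ Q : ObjectProperty (DerivedCategory (ModObj k F C)), Q.IsTriangulated →
      Q.IsStableUnderRetracts → (∀ i, Q (sg (D i))) →
        ∀ j, Q ((extF b C).mapDerivedCategory.obj (G j)))
    (i₀ : Fin m) (h3 : finrank F (D i₀ ⟶ D i₀) = 3)
    (h1 : ∀ i, i ≠ i₀ → finrank F (D i ⟶ D i) = 1)
    (hrel : ∃ y, clsB (UpF F Pf) (D i₀) + clsB (UpF F Pf) ((tau C g).obj (D i₀)) = (3 : ℤ) • y) :
    ¬ ∃ (n : ℕ) (E : Fin n → DerivedCategory C), (∀ i, Pf (E i)) ∧ IsSemiExcCollection k E ∧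
      FullIn Pf E := by
  have hD' : ∀ i, UpF F Pf (sg (D i)) := fun i => (upF_sg Pf (D i)).2 (hD i)
  refine no_full_collection (quadData b h2) Pf (tau C g) b.s_ne_zero h2 c b.sq (extTau b g hg) hb
    hf (fun i => sg (D i)) hD' hdiv horth
    (fun N hN ho => isZero_of_gen (quadData b h2) Pf hG (fun i => sg (D i)) hgen N hN ho) i₀
    ((finrank_sg' F _ _).trans h3) (fun i hi => (finrank_sg' F _ _).trans (h1 i hi)) ?_
  obtain ⟨y, hy⟩ := hrel
  refine ⟨y, ?_⟩
  rw [← hy, clsB_eq (hD' i₀)]
  congr 1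
  exact clsB_eq_of_iso _ (((tau C g).mapDerivedCategorySingleFunctor 0).app (D i₀))

end Main

end BC

end Orl
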