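import Pool.Agent.Work.MP_a6e60d_ag.BC.Der
import Pool.Agent.Work.MP_a6e60d_ag.Idem.Basic
import Pool.Agent.Work.MP_a6e60d_ag.Semi.Base
import Pool.Agent.Work.MP_a6e60d_ag.Semi.Facts

/-!
MP_a6e60d_ag, derived base change, 3: a triangulated subcategory `Pf` of `D(A)` (perfect objects),
the objects of `D(B)` whose restriction of scalars is in `Pf`; Theorem B in this setting.
-/

open CategoryTheory Category Limits Pretriangulated Module ZeroObject

set_option linter.unusedSectionVars false

attribute [-instance] CategoryTheory.catToReflQuiver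

universe w w' v v' u u' z z'

namespace Orl

open OrlNum

/-- The collection generates the objects in `Pf` in the ambient triangulated category. -/
def FullIn {T : Type u} [Category.{v} T] [Preadditive T] [HasZeroObject T] [HasShift T ℤ]
    [∀ n : ℤ, (shiftFunctor T n).Additive] [Pretriangulated T] (Pf : ObjectProperty T)
    {ι : Type*} (E : ι → T) : Prop :=
  ∀ Q : ObjectProperty T, Q.IsTriangulated → Q.IsStableUnderRetracts → (∀ i, Q (E i)) →
    ∀ X, Pf X → Q X

section Sub

variable {T : Type u} [Category.{v} T] [Preadditive T] [HasZeroObject T] [HasShift T ℤ]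
    [∀ n : ℤ, (shiftFunctor T n).Additive] [Pretriangulated T] (Pf : ObjectProperty T)
    [Pf.IsTriangulated] [Pf.IsStableUnderRetracts]

theorem thickGen_of_fullIn {ι : Type*} {E : ι → T} (hE : ∀ i, Pf (E i)) (h : FullIn Pf E) :
    ThickGen (T := Pf.FullSubcategory) (fun i => ⟨E i, hE i⟩) := by
  intro Q hQ hr hi X
  let Q' : ObjectProperty T := Q.map Pf.ι
  have h1 : Q'.IsTriangulated := inferInstance
  have h2 : Q'.IsStableUnderRetracts := by
    refine ⟨fun {X Y} r hY => ?_⟩
    obtain ⟨Z, hZ, ⟨e⟩⟩ := hY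
    have hX : Pf X := ObjectProperty.prop_of_retract Pf (r.trans (Retract.ofIso e.symm)) Z.property
    refine ⟨⟨X, hX⟩, ?_, ⟨Iso.refl _⟩⟩
    refine ObjectProperty.prop_of_retract Q (Y := Z) ?_ hZ
    exact ⟨ObjectProperty.homMk (r.i ≫ e.inv), ObjectProperty.homMk (e.hom ≫ r.r), by
      ext
      simp⟩
  have h3 := h Q' h1 h2 (fun i => ⟨⟨E i, hE i⟩, hi i, ⟨Iso.refl _⟩⟩) X.obj X.property
  obtain ⟨Z, hZ, ⟨e⟩⟩ := h3
  have : Q.IsClosedUnderIsomorphisms := inferInstance
  exact Q.prop_of_iso (Pf.isoMk e) hZ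

variable (k : Type z) [Field k] [Linear k T]

instance inverseImage_stableUnderRetracts {T' : Type u'} [Category.{v'} T'] (G : T' ⥤ T) :
    (Pf.inverseImage G).IsStableUnderRetracts where
  of_retract r h := ObjectProperty.prop_of_retract Pf (r.map G) h

/-- the endomorphism ring in the full subcategory -/
def endEquiv (X : Pf.FullSubcategory) : End X ≃+* End X.obj where
  toFun f := f.hom
  invFun f := ObjectProperty.homMk f
  left_inv _ := rfl
  right_inv _ := rfl
  map_mul' _ _ := rfl
  map_add' _ _ := rfl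

theorem orth_sub {X Y : Pf.FullSubcategory} (h : Orth X.obj Y.obj) : Orth X Y := by
  intro m f
  ext
  exact (cancel_epi ((Pf.ι.commShiftIso m).inv.app X)).1 ((h m _).trans comp_zero.symm)

theorem orth_of_sub {X Y : Pf.FullSubcategory} (h : Orth X Y) : Orth X.obj Y.obj := by
  intro m f
  have h1 := h m (ObjectProperty.homMk ((Pf.ι.commShiftIso m).hom.app X ≫ f))
  have h2 : (Pf.ι.commShiftIso m).hom.app X ≫ f = 0 := congrArg (fun x => x.hom) h1
  rw [← cancel_epi ((Pf.ι.commShiftIso m).hom.app X), h2]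
  exact comp_zero.symm

theorem divn_sub {X : Pf.FullSubcategory} (h : Divn X.obj) : Divn X where
  iso f hf := by
    have h1 : f.hom ≠ 0 := fun h0 => hf (by ext; exact h0)
    have := h.iso f.hom h1
    have : IsIso (Pf.ι.map f) := this
    exact isIso_of_reflects_iso f Pf.ι
  shift m hm f := by
    ext
    exact (cancel_epi ((Pf.ι.commShiftIso m).inv.app X)).1 ((h.shift m hm _).trans comp_zero.symm)

theorem isZero_sub {X : Pf.FullSubcategory} (h : IsZero X.obj) : IsZero X := by
  rw [IsZero.iff_id_eq_zero]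
  ext
  exact h.eq_of_src _ _

theorem isZero_of_sub {X : Pf.FullSubcategory} (h : IsZero X) : IsZero X.obj := by
  rw [IsZero.iff_id_eq_zero]
  exact congrArg (fun x => x.hom) (h.eq_of_src (𝟙 X) 0)

theorem isSemiExceptional_sub {E : T} (hE : Pf E) (h : IsSemiExceptional k E) :
    IsSemiExceptional k (T := Pf.FullSubcategory) ⟨E, hE⟩ where
  hom m hm f := by
    ext
    exact (cancel_mono ((Pf.ι.commShiftIso m).hom.app (⟨E, hE⟩ : Pf.FullSubcategory))).1
      ((h.hom m hm _).trans zero_comp.symm)
  fin := by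
    have := h.fin
    exact Module.Finite.equiv
      ({ endEquiv Pf (⟨E, hE⟩ : Pf.FullSubcategory) with
          map_smul' := fun _ _ => rfl } : End (⟨E, hE⟩ : Pf.FullSubcategory) ≃ₗ[k] End E).symm
  semisimple := by
    have := h.semisimple
    exact (endEquiv Pf (⟨E, hE⟩ : Pf.FullSubcategory)).symm.isSemisimpleRing

theorem isSemiExcCollection_sub {n : ℕ} {E : Fin n → T} (hE : ∀ i, Pf (E i))
    (h : IsSemiExcCollection k E) :
    IsSemiExcCollection k (T := Pf.FullSubcategory) (fun i => ⟨E i, hE i⟩) where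
  obj i := isSemiExceptional_sub Pf k (hE i) (h.obj i)
  hom i j hij m f := by
    ext
    exact (cancel_mono ((Pf.ι.commShiftIso m).hom.app (⟨E i, hE i⟩ : Pf.FullSubcategory))).1
      ((h.hom i j hij m _).trans zero_comp.symm)

end Sub

section Bdd

variable {A : Type u} [Category.{v} A] [Abelian A] [HasDerivedCategory.{w} A]
  {B : Type u'} [Category.{v'} B] [Abelian B] [HasDerivedCategory.{w'} B]

theorem bounded_of_retract {X Y : DerivedCategory A} (r : Retract X Y)
    (h : (DerivedCategory.TStructure.t (C := A)).bounded Y) :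
    (DerivedCategory.TStructure.t (C := A)).bounded X := by
  obtain ⟨⟨a, ha⟩, ⟨b, hb⟩⟩ := h
  have ha' : Y.IsGE a := ha
  have hb' : Y.IsLE b := hb
  have hz : ∀ i, IsZero ((DerivedCategory.homologyFunctor A i).obj Y) →
      IsZero ((DerivedCategory.homologyFunctor A i).obj X) := by
    intro i hY
    have r' := r.map (DerivedCategory.homologyFunctor A i)
    rw [IsZero.iff_id_eq_zero, ← r'.retract, hY.eq_of_tgt r'.i 0, zero_comp]
  refine ⟨⟨a, ?_⟩, ⟨b, ?_⟩⟩
  · exact (DerivedCategory.isGE_iff X a).2 fun i hi =>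
      hz i ((DerivedCategory.isGE_iff Y a).1 ha' i hi)
  · exact (DerivedCategory.isLE_iff X b).2 fun i hi =>
      hz i ((DerivedCategory.isLE_iff Y b).1 hb' i hi)

variable (P : A ⥤ B) [P.Additive] [PreservesFiniteLimits P] [PreservesFiniteColimits P]

theorem bounded_map {X : DerivedCategory A}
    (h : (DerivedCategory.TStructure.t (C := A)).bounded X) :
    (DerivedCategory.TStructure.t (C := B)).bounded (P.mapDerivedCategory.obj X) := by
  obtain ⟨⟨a, ha⟩, ⟨b, hb⟩⟩ := h
  have ha' : X.IsGE a := ha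
  have hb' : X.IsLE b := hb
  refine ⟨⟨a, ?_⟩, ⟨b, ?_⟩⟩
  · obtain ⟨K, hK, ⟨e⟩⟩ := X.exists_iso_Q_obj_of_isGE a
    exact ⟨(P.mapHomologicalComplex (ComplexShape.up ℤ)).obj K,
      P.mapDerivedCategory.mapIso e ≪≫ P.mapDerivedCategoryFactors.app K, inferInstance⟩
  · obtain ⟨K, hK, ⟨e⟩⟩ := X.exists_iso_Q_obj_of_isLE b
    exact ⟨(P.mapHomologicalComplex (ComplexShape.up ℤ)).obj K,
      P.mapDerivedCategory.mapIso e ≪≫ P.mapDerivedCategoryFactors.app K, inferInstance⟩

end Bdd

namespace BC

section Der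

variable {A : Type u} [Category.{v} A] [Abelian A] [HasDerivedCategory.{w} A]
  {B : Type u'} [Category.{v'} B] [Abelian B] [HasDerivedCategory.{w'} B]
  {P : A ⥤ B} [P.Additive] [PreservesFiniteLimits P] [PreservesFiniteColimits P]
  {R : B ⥤ A} [R.Additive] [PreservesFiniteLimits R] [PreservesFiniteColimits R]
  {k : Type z} [Field k] {F : Type z'} [Field F] [Algebra k F] [Linear k A] [Linear F B]
  {adj : P ⊣ R} {s : F} (q : QuadData k F P R adj s)
  (Pf : ObjectProperty (DerivedCategory A)) [Pf.IsTriangulated] [Pf.IsStableUnderRetracts]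

variable (R) in
/-- the objects of D(B) whose restriction of scalars is in Pf -/
abbrev Up : ObjectProperty (DerivedCategory B) := Pf.inverseImage R.mapDerivedCategory

include q in
theorem prop_RP {X : DerivedCategory A} (hX : Pf X) :
    Pf (R.mapDerivedCategory.obj (P.mapDerivedCategory.obj X)) := by
  have key : ∀ K : CochainComplex A ℤ, Pf (DerivedCategory.Q.obj K) →
      Pf (R.mapDerivedCategory.obj (P.mapDerivedCategory.obj (DerivedCategory.Q.obj K))) := by
    intro K hK
    obtain ⟨a, b, h⟩ := span_Q q K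
    have h2 : Pf (DerivedCategory.Q.obj K ⊞ DerivedCategory.Q.obj K) := by
      refine Pf.prop_of_iso ?_ (Pf.ext_of_isTriangulatedClosed₂ _
        (binaryBiproductTriangle_distinguished (DerivedCategory.Q.obj K) (DerivedCategory.Q.obj K))
        hK hK)
      exact Iso.refl _
    refine ObjectProperty.prop_of_retract Pf (Y := DerivedCategory.Q.obj K ⊞ DerivedCategory.Q.obj K)
      ⟨biprod.lift a b, biprod.desc ((derAdj adj).unit.app (DerivedCategory.Q.obj K))
        ((derAdj adj).unit.app (DerivedCategory.Q.obj K) ≫ R.mapDerivedCategory.map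
          (s • 𝟙 (P.mapDerivedCategory.obj (DerivedCategory.Q.obj K)))), ?_⟩ h2
    rw [biprod.lift_desc]
    exact h
  have e := DerivedCategory.Q.objObjPreimageIso X
  exact Pf.prop_of_iso (R.mapDerivedCategory.mapIso (P.mapDerivedCategory.mapIso e))
    (key _ (Pf.prop_of_iso e.symm hX))

include q in
theorem up_bounded (hb : Pf ≤ (DerivedCategory.TStructure.t (C := A)).bounded) :
    Up R Pf ≤ (DerivedCategory.TStructure.t (C := B)).bounded := by
  intro N hN
  obtain ⟨r⟩ := exists_retract q N
  exact bounded_of_retract r (bounded_map P (hb _ hN))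

end Der

end BC

section ShiftLin

variable {T : Type u} [Category.{v} T] [Preadditive T] [HasZeroObject T] [HasShift T ℤ]
    [∀ n : ℤ, (shiftFunctor T n).Additive] [Pretriangulated T] (Pf : ObjectProperty T)
    [Pf.IsStableUnderShift ℤ] (F : Type z) [Field F] [Linear F T]
    [∀ n : ℤ, (shiftFunctor T n).Linear F]

instance shift_linear_sub (n : ℤ) : (shiftFunctor Pf.FullSubcategory n).Linear F where
  map_smul {X Y} f r := by
    apply Pf.ι.map_injective
    rw [← cancel_mono ((Pf.ι.commShiftIso n).hom.app Y)]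
    have h1 := (Pf.ι.commShiftIso n).hom.naturality (r • f)
    have h2 := (Pf.ι.commShiftIso n).hom.naturality f
    simp only [Functor.comp_map] at h1 h2
    rw [h1]
    have h3 : Pf.ι.map (r • (shiftFunctor Pf.FullSubcategory n).map f) =
      r • Pf.ι.map ((shiftFunctor Pf.FullSubcategory n).map f) := rfl
    have h4 : Pf.ι.map (r • f) = r • Pf.ι.map f := rfl
    rw [h3, h4, Functor.map_smul, Linear.comp_smul, Linear.smul_comp, h2]

end ShiftLin

namespace BC

section Der

variable {A : Type u} [Category.{v} A] [Abelian A] [HasDerivedCategory.{w} A]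
  {B : Type u'} [Category.{v'} B] [Abelian B] [HasDerivedCategory.{w'} B]
  {P : A ⥤ B} [P.Additive] [PreservesFiniteLimits P] [PreservesFiniteColimits P]
  {R : B ⥤ A} [R.Additive] [PreservesFiniteLimits R] [PreservesFiniteColimits R]
  {k : Type z} [Field k] {F : Type z'} [Field F] [Algebra k F] [Linear k A] [Linear F B]
  {adj : P ⊣ R} {s : F} (q : QuadData k F P R adj s)
  (Pf : ObjectProperty (DerivedCategory A)) [Pf.IsTriangulated] [Pf.IsStableUnderRetracts]

include q in
theorem homFin_up (hf : HomFin k Pf.FullSubcategory) : HomFin F (Up R Pf).FullSubcategory := by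
  have hR := faithful_R (adj := adj) q
  refine ⟨fun X Y => ?_, fun X Y => ?_⟩
  · let X' : Pf.FullSubcategory := ⟨R.mapDerivedCategory.obj X.obj, X.property⟩
    let Y' : Pf.FullSubcategory := ⟨R.mapDerivedCategory.obj Y.obj, Y.property⟩
    let _ : Module k (X ⟶ Y) := Module.compHom _ (algebraMap k F)
    have hs : ∀ (c : k) (f : X ⟶ Y), c • f = (algebraMap k F c) • f := fun _ _ => rfl
    have : IsScalarTower k F (X ⟶ Y) := ⟨fun c r f => by
      rw [hs, smul_smul, Algebra.smul_def]⟩
    let φ : (X ⟶ Y) →ₗ[k] (X' ⟶ Y') :=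
      { toFun := fun f => ObjectProperty.homMk (R.mapDerivedCategory.map f.hom)
        map_add' := fun f g => by
          ext
          exact R.mapDerivedCategory.map_add
        map_smul' := fun c f => by
          ext
          exact map_algebraMap_smul q c f.hom }
    have hφ : Function.Injective φ := by
      intro f g h
      ext
      exact R.mapDerivedCategory.map_injective (congrArg (fun x => x.hom) h)
    have := hf.fin X' Y'
    have : Module.Finite k (X ⟶ Y) := Module.Finite.of_injective φ hφ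
    exact Module.Finite.of_restrictScalars_finite k F (X ⟶ Y)
  · let X' : Pf.FullSubcategory := ⟨R.mapDerivedCategory.obj X.obj, X.property⟩
    let Y' : Pf.FullSubcategory := ⟨R.mapDerivedCategory.obj Y.obj, Y.property⟩
    obtain ⟨N, hN⟩ := hf.bdd X' Y'
    refine ⟨N, fun m hm f => ?_⟩
    let e : (X'⟦m⟧).obj ≅ R.mapDerivedCategory.obj (X⟦m⟧).obj :=
      (Pf.ι.commShiftIso m).app X' ≪≫ ((R.mapDerivedCategory.commShiftIso m).symm.app X.obj) ≪≫
        R.mapDerivedCategory.mapIso (((Up R Pf).ι.commShiftIso m).symm.app X)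
    ext
    apply R.mapDerivedCategory.map_injective
    have h1 := hN m hm (ObjectProperty.homMk (e.hom ≫ R.mapDerivedCategory.map f.hom))
    have h2 : e.hom ≫ R.mapDerivedCategory.map f.hom = 0 := congrArg (fun x => x.hom) h1
    have h3 : R.mapDerivedCategory.map f.hom = 0 := by
      rw [← cancel_epi e.hom, h2, comp_zero]
    rw [h3]
    exact (R.mapDerivedCategory.map_zero _ _).symm

include q in
theorem idem_up (hb : Pf ≤ (DerivedCategory.TStructure.t (C := A)).bounded) :
    IsIdempotentComplete (Up R Pf).FullSubcategory := by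
  refine Idem.isIdempotentComplete_fullSubcategory (Up R Pf) (up_bounded q Pf hb) ?_
  intro X Y i p h hY
  exact ObjectProperty.prop_of_retract (Up R Pf) ⟨i, p, h⟩ hY

include q in
theorem map_smul_id (c : k) (X : DerivedCategory A) :
    P.mapDerivedCategory.map (c • 𝟙 X) = algebraMap k F c • 𝟙 _ := by
  apply ((derAdj adj).homEquiv X _).injective
  rw [Adjunction.homEquiv_unit, Adjunction.homEquiv_unit, map_algebraMap_smul q]
  have h1 := (derAdj adj).unit.naturality (c • 𝟙 X)
  simp only [Functor.comp_map, Functor.id_map] at h1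
  rw [← h1, CategoryTheory.Functor.map_id, Linear.smul_comp, Linear.comp_smul]
  exact congrArg (c • ·) ((id_comp _).trans (comp_id _).symm)

/-- P on the perfect objects -/
noncomputable abbrev perfP : Pf.FullSubcategory ⥤ (Up R Pf).FullSubcategory :=
  (Up R Pf).lift (Pf.ι ⋙ P.mapDerivedCategory) (fun X => prop_RP q Pf X.property)

section Tau

variable (τ : B ⥤ B) [τ.Additive] [τ.IsEquivalence] [PreservesFiniteLimits τ]
  [PreservesFiniteColimits τ]

include q in
theorem prop_tau (φ : P ⋙ τ ≅ P) (N : DerivedCategory B) (hN : Up R Pf N) :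
    Up R Pf (τ.mapDerivedCategory.obj N) := by
  obtain ⟨r⟩ := exists_retract q N
  obtain ⟨e⟩ := exists_iso_tau τ φ (R.mapDerivedCategory.obj N)
  exact ObjectProperty.prop_of_retract (Up R Pf) ((r.map τ.mapDerivedCategory).trans
    (Retract.ofIso e)) (prop_RP q Pf hN)

/-- τ on the perfect objects -/
noncomputable abbrev perfTau (φ : P ⋙ τ ≅ P) :
    (Up R Pf).FullSubcategory ⥤ (Up R Pf).FullSubcategory :=
  (Up R Pf).lift ((Up R Pf).ι ⋙ τ.mapDerivedCategory)
    (fun N => prop_tau q Pf τ φ N.obj N.property)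

/-- Theorem B in the derived category of A: no full semi-exceptional collection of perfect
objects, given one explicit collection over F and one relation in the Grothendieck group. -/
theorem no_full_collection (hs : s ≠ 0) (h2 : (2 : F) ≠ 0) (c : k) (hc : s * s = algebraMap k F c)
    (φ : P ⋙ τ ≅ P) (hb : Pf ≤ (DerivedCategory.TStructure.t (C := A)).bounded)
    (hf : HomFin k Pf.FullSubcategory) {m : ℕ} (D : Fin m → DerivedCategory B)
    (hD : ∀ i, Up R Pf (D i)) (hdiv : ∀ i, Divn (D i)) (horth : ∀ i j, i < j → Orth (D i) (D j))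
    (hgen : ∀ N : DerivedCategory B, Up R Pf N → (∀ i, Orth (D i) N) → IsZero N) (i₀ : Fin m)
    (h3 : finrank F (D i₀ ⟶ D i₀) = 3) (h1 : ∀ i, i ≠ i₀ → finrank F (D i ⟶ D i) = 1)
    (hrel : ∃ y : K0 (Up R Pf).FullSubcategory,
      cls (⟨D i₀, hD i₀⟩ : (Up R Pf).FullSubcategory) +
        cls (⟨τ.mapDerivedCategory.obj (D i₀), prop_tau q Pf τ φ _ (hD i₀)⟩ :
          (Up R Pf).FullSubcategory) = (3 : ℤ) • y) :
    ¬ ∃ (n : ℕ) (E : Fin n → DerivedCategory A), (∀ i, Pf (E i)) ∧ IsSemiExcCollection k E ∧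
      FullIn Pf E := by
  rintro ⟨n, E, hE, hcol, hfull⟩
  have := homFin_up q Pf hf
  have := idem_up q Pf hb
  have hτf := (fullyFaithful_tau τ).1
  have hτg := (fullyFaithful_tau τ).2
  have hfin : ∀ X Y : (Up R Pf).FullSubcategory, finrank F (X ⟶ Y) = finrank F (X.obj ⟶ Y.obj) :=
    fun X Y => LinearEquiv.finrank_eq
      ({ toFun := fun f => f.hom
         invFun := fun f => ObjectProperty.homMk f
         left_inv := fun _ => rfl
         right_inv := fun _ => rfl
         map_add' := fun _ _ => rfl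
         map_smul' := fun _ _ => rfl } : (X ⟶ Y) ≃ₗ[F] (X.obj ⟶ Y.obj))
  obtain ⟨F1, F2⟩ := facts_of_collection F
    (fun i => (⟨D i, hD i⟩ : (Up R Pf).FullSubcategory)) (fun i => divn_sub _ (hdiv i))
    (fun i j hij => orth_sub _ (horth i j hij))
    (fun N hN => isZero_sub _ (hgen N.obj N.property fun i => orth_of_sub _ (hN i))) i₀
    (by rw [hfin]; exact h3) (fun i hi => by rw [hfin]; exact h1 i hi)
    (K0.map (perfTau q Pf τ φ)) (by rw [K0.map_cls]; exact hrel)
  refine no_full_semiExceptional_collection (T := Pf.FullSubcategory)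
    (S := (Up R Pf).FullSubcategory) k F (perfP q Pf) s hs h2 (fun X => ?_) (fun X Y f => ?_)
    (fun N => ?_) (perfTau q Pf τ φ) (fun X => ?_) F1 F2
    ⟨n, fun i => ⟨E i, hE i⟩, isSemiExcCollection_sub Pf k hE hcol, thickGen_of_fullIn Pf hE hfull⟩
  · refine ⟨c • 𝟙 X, ?_⟩
    rw [hc]
    ext
    exact map_smul_id q c X.obj
  · obtain ⟨a, b, hab⟩ := exists_map_add q X.obj Y.obj f.hom
    refine ⟨ObjectProperty.homMk a, ObjectProperty.homMk b, ?_⟩
    ext
    exact hab
  · obtain ⟨r⟩ := exists_retract q N.obj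
    refine ⟨⟨R.mapDerivedCategory.obj N.obj, N.property⟩, ⟨ObjectProperty.homMk r.i,
      ObjectProperty.homMk r.r, ?_⟩⟩
    ext
    exact r.retract
  · obtain ⟨e⟩ := exists_iso_tau τ φ X.obj
    exact ⟨(Up R Pf).isoMk e⟩

end Tau

end Der

end BC

end Orl
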