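import Pool.Agent.Work.MP_a6e60d_ag.LF.LinFun
import Pool.Agent.Work.MP_a6e60d_ag.BC.Der

/-!
MP_a6e60d_ag, base change, 4: the extension of scalars `C ⥤ ModObj k F C` for a quadratic
extension `F = k(s)`, `s * s = c`, of characteristic not 2, and its data `QuadData`.
-/

open CategoryTheory Category Limits

set_option linter.unusedSectionVars false

attribute [-instance] CategoryTheory.catToReflQuiver

universe w w' v v' u u' z z'

namespace Orl

namespace LF

section Lin

variable {k : Type z} [Field k] {E : Type z'} [Field E] [Algebra k E]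
variable {C : Type u} [Category.{v} C] [Preadditive C] [Linear k C]

namespace ModObj

/-- the scalar e on a morphism of E-objects -/
def esmul {M N : ModObj k E C} (e : E) (f : M ⟶ N) : M ⟶ N :=
  homMk (M.act e ≫ homPt f) (fun e' => by
    rw [assoc, ← act_homPt f e', act_comm_assoc])

theorem homPt_esmul {M N : ModObj k E C} (e : E) (f : M ⟶ N) :
    homPt (esmul e f) = M.act e ≫ homPt f := rfl

theorem homPt_add {M N : ModObj k E C} (f g : M ⟶ N) : homPt (f + g) = homPt f + homPt g := rfl

theorem homPt_zero {M N : ModObj k E C} : homPt (0 : M ⟶ N) = 0 := rfl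

theorem homPt_comp {M N L : ModObj k E C} (f : M ⟶ N) (g : N ⟶ L) :
    homPt (f ≫ g) = homPt f ≫ homPt g := rfl

theorem homPt_id (M : ModObj k E C) : homPt (𝟙 M) = 𝟙 M.pt := rfl

/-- the category of E-objects is E-linear -/
instance linearE : Linear E (ModObj k E C) where
  homModule M N :=
    { smul := fun e f => esmul e f
      one_smul := fun f => hom_ext (by
        change M.act 1 ≫ homPt f = homPt f
        rw [act_one, id_comp])
      mul_smul := fun a b f => hom_ext (by
        change M.act (a * b) ≫ homPt f = M.act a ≫ M.act b ≫ homPt f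
        rw [act_mul, assoc])
      smul_zero := fun a => hom_ext (by
        change M.act a ≫ (0 : M.pt ⟶ N.pt) = 0
        rw [comp_zero])
      smul_add := fun a f g => hom_ext (by
        change M.act a ≫ (homPt f + homPt g) = M.act a ≫ homPt f + M.act a ≫ homPt g
        rw [Preadditive.comp_add])
      add_smul := fun a b f => hom_ext (by
        change M.act (a + b) ≫ homPt f = M.act a ≫ homPt f + M.act b ≫ homPt f
        rw [act_add, Preadditive.add_comp])
      zero_smul := fun f => hom_ext (by
        change M.act 0 ≫ homPt f = 0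
        rw [act_zero, zero_comp]) }
  smul_comp M N L a f g := hom_ext (by
    change (M.act a ≫ homPt f) ≫ homPt g = M.act a ≫ homPt f ≫ homPt g
    rw [assoc])
  comp_smul M N L f a g := hom_ext (by
    change homPt f ≫ N.act a ≫ homPt g = M.act a ≫ homPt f ≫ homPt g
    rw [← act_homPt_assoc])

theorem homPt_smul {M N : ModObj k E C} (e : E) (f : M ⟶ N) :
    homPt (e • f) = M.act e ≫ homPt f := rfl

theorem homPt_smul_id (M : ModObj k E C) (e : E) : homPt (e • 𝟙 M) = M.act e := by
  rw [homPt_smul, homPt_id, comp_id]

end ModObj

end Lin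

end LF

namespace BC

open LF

/-- coordinates in the basis 1, s of a quadratic extension with s * s = c -/
structure QuadBasis (k : Type z) (F : Type z') [Field k] [Field F] [Algebra k F] (s : F)
    (c : k) where
  x : F →ₗ[k] k
  y : F →ₗ[k] k
  eq : ∀ e, e = algebraMap k F (x e) + algebraMap k F (y e) * s
  x_one : x 1 = 1
  y_one : y 1 = 0
  x_s : x s = 0
  y_s : y s = 1
  sq : s * s = algebraMap k F c

namespace QuadBasis

variable {k : Type z} {F : Type z'} [Field k] [Field F] [Algebra k F] {s : F} {c : k}
  (b : QuadBasis k F s c)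

include b

theorem x_mk (p q : k) : b.x (algebraMap k F p + algebraMap k F q * s) = p := by
  rw [map_add, ← Algebra.smul_def, Algebra.algebraMap_eq_smul_one, map_smul, map_smul, b.x_one,
    b.x_s, smul_zero, add_zero, smul_eq_mul, mul_one]

theorem y_mk (p q : k) : b.y (algebraMap k F p + algebraMap k F q * s) = q := by
  rw [map_add, ← Algebra.smul_def, Algebra.algebraMap_eq_smul_one, map_smul, map_smul, b.y_one,
    b.y_s, smul_zero, zero_add, smul_eq_mul, mul_one]

theorem mul_eq (e e' : F) : e * e' = algebraMap k F (b.x e * b.x e' + c * (b.y e * b.y e')) +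
    algebraMap k F (b.x e * b.y e' + b.y e * b.x e') * s := by
  conv_lhs => rw [b.eq e, b.eq e']
  simp only [map_add, map_mul, ← b.sq]
  ring

theorem x_mul (e e' : F) : b.x (e * e') = b.x e * b.x e' + c * (b.y e * b.y e') := by
  rw [b.mul_eq, b.x_mk]

theorem y_mul (e e' : F) : b.y (e * e') = b.x e * b.y e' + b.y e * b.x e' := by
  rw [b.mul_eq, b.y_mk]

theorem s_ne_zero : s ≠ 0 := by
  intro h
  have h1 : b.y s = b.y 0 := congrArg b.y h
  rw [b.y_s, map_zero] at h1
  exact one_ne_zero h1

theorem c_ne_zero : c ≠ 0 := by
  intro h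
  have := b.sq
  rw [h, map_zero, mul_self_eq_zero] at this
  exact b.s_ne_zero this

end QuadBasis

/-- the coordinates exist in every quadratic extension with a generator whose square is in k -/
theorem nonempty_quadBasis {k : Type z} {F : Type z'} [Field k] [Field F] [Algebra k F] {s : F}
    {c : k} (h : Module.finrank k F = 2) (hs : s ∉ Set.range (algebraMap k F))
    (hc : s * s = algebraMap k F c) : Nonempty (QuadBasis k F s c) := by
  have hli : LinearIndependent k ![(1 : F), s] := by
    rw [LinearIndependent.pair_iff' one_ne_zero]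
    intro a ha
    exact hs ⟨a, by rw [Algebra.algebraMap_eq_smul_one, ha]⟩
  let B := basisOfLinearIndependentOfCardEqFinrank hli (by simp [h])
  have hB : ∀ i, B i = ![(1 : F), s] i := fun i => by
    simp [B]
  have h0 : B 0 = 1 := hB 0
  have h1 : B 1 = s := hB 1
  refine ⟨{ x := B.coord 0, y := B.coord 1, eq := ?_, x_one := ?_, y_one := ?_, x_s := ?_,
            y_s := ?_, sq := hc }⟩
  · intro e
    conv_lhs => rw [← B.sum_repr e]
    rw [Fin.sum_univ_two, h0, h1, Module.Basis.coord_apply, Module.Basis.coord_apply,
      Algebra.smul_def, Algebra.smul_def, mul_one]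
  · rw [← h0]
    simp
  · rw [← h0]
    simp
  · rw [← h1]
    simp
  · rw [← h1]
    simp

section Ext

variable {k : Type z} {F : Type z'} [Field k] [Field F] [Algebra k F] {s : F} {c : k}
  (b : QuadBasis k F s c)
variable (C : Type u) [Category.{v} C] [Abelian C] [Linear k C]

/-- multiplication by s on M + M s -/
noncomputable def mulS (c : k) (M : C) : M ⊞ M ⟶ M ⊞ M :=
  biprod.fst ≫ biprod.inr + c • (biprod.snd ≫ biprod.inl)

variable {C}

theorem inl_mulS (M : C) : biprod.inl ≫ mulS C c M = biprod.inr := by
  simp [mulS]

theorem inr_mulS (M : C) : biprod.inr ≫ mulS C c M = c • biprod.inl := by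
  simp [mulS]

theorem mulS_fst (M : C) : mulS C c M ≫ biprod.fst = c • biprod.snd := by
  simp [mulS]

theorem mulS_snd (M : C) : mulS C c M ≫ biprod.snd = biprod.fst := by
  simp [mulS]

theorem mulS_mulS (M : C) : mulS C c M ≫ mulS C c M = c • 𝟙 _ := by
  apply biprod.hom_ext' <;> simp [← assoc, inl_mulS, inr_mulS]

theorem mulS_nat {M N : C} (f : M ⟶ N) :
    mulS C c M ≫ biprod.map f f = biprod.map f f ≫ mulS C c N := by
  apply biprod.hom_ext' <;> apply biprod.hom_ext <;> simp [mulS]

/-- the action of F on M + M s -/
noncomputable def extAct (M : C) (e : F) : M ⊞ M ⟶ M ⊞ M :=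
  b.x e • 𝟙 _ + b.y e • mulS C c M

/-- extension of scalars on objects -/
noncomputable def extObj (M : C) : ModObj k F C :=
  ModObj.mk' (M ⊞ M) (extAct b M)
    (by rw [extAct, b.x_one, b.y_one, one_smul, zero_smul, add_zero])
    (fun e e' => by
      simp only [extAct, b.x_mul, b.y_mul, Preadditive.add_comp, Preadditive.comp_add,
        Linear.smul_comp, Linear.comp_smul, id_comp, comp_id, mulS_mulS]
      module)
    (fun e e' => by
      simp only [extAct, map_add, add_smul]
      abel)
    (fun r e => by
      simp only [extAct, map_smul, smul_add, smul_smul, smul_eq_mul])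

variable (C) in
/-- extension of scalars -/
noncomputable def extF : C ⥤ ModObj k F C where
  obj M := extObj b M
  map f := ModObj.homMk (biprod.map f f) (fun e => by
    change extAct b _ e ≫ biprod.map f f = biprod.map f f ≫ extAct b _ e
    simp only [extAct, Preadditive.add_comp, Preadditive.comp_add, Linear.smul_comp,
      Linear.comp_smul, id_comp, comp_id, mulS_nat])
  map_id M := ModObj.hom_ext (by
    change biprod.map (𝟙 M) (𝟙 M) = 𝟙 _
    apply biprod.hom_ext' <;> simp)
  map_comp f g := ModObj.hom_ext (by
    change biprod.map (f ≫ g) (f ≫ g) = biprod.map f f ≫ biprod.map g g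
    apply biprod.hom_ext' <;> simp)

instance : (extF b C).Additive where
  map_add {M N f g} := ModObj.hom_ext (by
    change biprod.map (f + g) (f + g) = biprod.map f f + biprod.map g g
    apply biprod.hom_ext' <;> simp)

variable (k F C) in
/-- restriction of scalars -/
abbrev resF : ModObj k F C ⥤ C := ev (SingleObj.star F)

theorem resF_map {M N : ModObj k F C} (f : M ⟶ N) : (resF k F C).map f = ModObj.homPt f := rfl

theorem homPt_extF_map {M N : C} (f : M ⟶ N) :
    ModObj.homPt ((extF b C).map f) = biprod.map f f := rfl

theorem act_extF (M : C) (e : F) : ((extF b C).obj M).act e = extAct b M e := rfl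

theorem extAct_s (M : C) : extAct b M s = mulS C c M := by
  rw [extAct, b.x_s, b.y_s, zero_smul, one_smul, zero_add]

theorem act_eq (N : ModObj k F C) (e : F) :
    N.act e = b.x e • 𝟙 _ + b.y e • N.act s := by
  conv_lhs => rw [b.eq e]
  rw [ModObj.act_add, ModObj.act_mul, ModObj.act_algebraMap, ModObj.act_algebraMap,
    Linear.smul_comp, id_comp]

include b in
theorem act_s_act_s (N : ModObj k F C) : N.act s ≫ N.act s = c • 𝟙 _ := by
  rw [← ModObj.act_mul, b.sq, ModObj.act_algebraMap]

/-- the counit of extension and restriction -/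
noncomputable def extCounit (N : ModObj k F C) : (extF b C).obj N.pt ⟶ N :=
  ModObj.homMk (biprod.desc (𝟙 _) (N.act s)) (fun e => by
    change extAct b N.pt e ≫ biprod.desc (𝟙 N.pt) (N.act s) =
      biprod.desc (𝟙 N.pt) (N.act s) ≫ N.act e
    rw [act_eq b N e, extAct]
    apply biprod.hom_ext'
    · simp only [Preadditive.add_comp, Preadditive.comp_add, Linear.smul_comp, Linear.comp_smul,
        id_comp, comp_id, biprod.inl_desc, ← assoc, inl_mulS, biprod.inr_desc]
    · simp only [Preadditive.add_comp, Preadditive.comp_add, Linear.smul_comp, Linear.comp_smul,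
        id_comp, comp_id, biprod.inl_desc, ← assoc, inr_mulS, biprod.inr_desc, act_s_act_s b])

/-- extension is left adjoint to restriction -/
noncomputable def extAdj : extF b C ⊣ resF k F C :=
  Adjunction.mkOfUnitCounit
    { unit := { app := fun M => biprod.inl
                naturality := fun M N f => by
                  change f ≫ biprod.inl = biprod.inl ≫ biprod.map f f
                  simp }
      counit := { app := fun N => extCounit b N
                  naturality := fun M N f => ModObj.hom_ext (by
                    change biprod.map (ModObj.homPt f) (ModObj.homPt f) ≫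
                      biprod.desc (𝟙 _) (N.act s) = biprod.desc (𝟙 _) (M.act s) ≫ ModObj.homPt f
                    apply biprod.hom_ext'
                    · simp
                    · simp [ModObj.act_homPt]) }
      left_triangle := by
        ext M
        change biprod.map biprod.inl biprod.inl ≫ 𝟙 _ ≫
          biprod.desc (𝟙 (M ⊞ M)) (extAct b M s) = 𝟙 _
        rw [extAct_s, id_comp]
        apply biprod.hom_ext'
        · simp
        · simp [inl_mulS]
      right_triangle := by
        ext N
        change biprod.inl ≫ 𝟙 _ ≫ biprod.desc (𝟙 _) (N.act s) = 𝟙 _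
        simp }

section Two

/-- the section of the counit -/
noncomputable def extSec (N : ModObj k F C) : N ⟶ (extF b C).obj N.pt :=
  ModObj.homMk (biprod.lift (N.act 2⁻¹) (N.act (2⁻¹ * s⁻¹))) (fun e => by
    change N.act e ≫ biprod.lift (N.act 2⁻¹) (N.act (2⁻¹ * s⁻¹)) =
      biprod.lift (N.act 2⁻¹) (N.act (2⁻¹ * s⁻¹)) ≫ extAct b N.pt e
    have h0 := b.s_ne_zero
    have h1 : N.act s ≫ N.act 2⁻¹ = c • N.act (2⁻¹ * s⁻¹) := by
      rw [← ModObj.act_mul, ← ModObj.act_smul, Algebra.smul_def, ← b.sq]
      congr 1
      field_simp
    have h2 : N.act s ≫ N.act (2⁻¹ * s⁻¹) = N.act 2⁻¹ := by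
      rw [← ModObj.act_mul]
      congr 1
      field_simp
    rw [act_eq b N e, extAct]
    apply biprod.hom_ext
    · simp only [Preadditive.add_comp, Preadditive.comp_add, Linear.smul_comp, Linear.comp_smul,
        id_comp, comp_id, biprod.lift_fst, assoc, mulS_fst, biprod.lift_snd, h1]
    · simp only [Preadditive.add_comp, Preadditive.comp_add, Linear.smul_comp, Linear.comp_smul,
        id_comp, comp_id, biprod.lift_snd, assoc, mulS_snd, biprod.lift_fst, h2])

theorem homPt_extSec (N : ModObj k F C) :
    ModObj.homPt (extSec b N) = biprod.lift (N.act 2⁻¹) (N.act (2⁻¹ * s⁻¹)) := rfl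

variable (h2 : (2 : F) ≠ 0)

include h2 in
theorem extSec_counit (N : ModObj k F C) : extSec b N ≫ extCounit b N = 𝟙 N := by
  apply ModObj.hom_ext
  change biprod.lift (N.act 2⁻¹) (N.act (2⁻¹ * s⁻¹)) ≫ biprod.desc (𝟙 N.pt) (N.act s) = 𝟙 N.pt
  rw [biprod.lift_desc, comp_id, ← ModObj.act_mul, mul_assoc, inv_mul_cancel₀ b.s_ne_zero,
    mul_one, ← ModObj.act_add, ← two_mul, mul_inv_cancel₀ h2, ModObj.act_one]

/-- the section of the counit, as a natural transformation -/
noncomputable def extSecNat : 𝟭 (ModObj k F C) ⟶ resF k F C ⋙ extF b C where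
  app N := extSec b N
  naturality M N f := ModObj.hom_ext (by
    change ModObj.homPt f ≫ biprod.lift (N.act 2⁻¹) (N.act (2⁻¹ * s⁻¹)) =
      biprod.lift (M.act 2⁻¹) (M.act (2⁻¹ * s⁻¹)) ≫
        biprod.map (ModObj.homPt f) (ModObj.homPt f)
    apply biprod.hom_ext
    · simp [ModObj.act_homPt]
    · simp [ModObj.act_homPt])

omit h2 in
/-- the unit of restriction and extension -/
noncomputable def extUnit' (N : ModObj k F C) : N ⟶ (extF b C).obj N.pt :=
  ModObj.homMk (biprod.lift (𝟙 _) (N.act s⁻¹)) (fun e => by
    change N.act e ≫ biprod.lift (𝟙 N.pt) (N.act s⁻¹) =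
      biprod.lift (𝟙 N.pt) (N.act s⁻¹) ≫ extAct b N.pt e
    have h0 := b.s_ne_zero
    have h1 : N.act s = c • N.act s⁻¹ := by
      rw [← ModObj.act_smul, Algebra.smul_def, ← b.sq]
      congr 1
      field_simp
    have h2 : N.act s ≫ N.act s⁻¹ = 𝟙 _ := by
      rw [← ModObj.act_mul, mul_inv_cancel₀ h0, ModObj.act_one]
    rw [act_eq b N e, extAct]
    apply biprod.hom_ext
    · simp only [Preadditive.add_comp, Preadditive.comp_add, Linear.smul_comp, Linear.comp_smul,
        id_comp, comp_id, biprod.lift_fst, assoc, mulS_fst, biprod.lift_snd]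
      rw [← h1]
    · simp only [Preadditive.add_comp, Preadditive.comp_add, Linear.smul_comp, Linear.comp_smul,
        id_comp, comp_id, biprod.lift_snd, assoc, mulS_snd, biprod.lift_fst, h2])

/-- extension is right adjoint to restriction -/
noncomputable def extAdj' : resF k F C ⊣ extF b C :=
  Adjunction.mkOfUnitCounit
    { unit := { app := fun N => extUnit' b N
                naturality := fun M N f => ModObj.hom_ext (by
                  change ModObj.homPt f ≫ biprod.lift (𝟙 N.pt) (N.act s⁻¹) =
                    biprod.lift (𝟙 M.pt) (M.act s⁻¹) ≫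
                      biprod.map (ModObj.homPt f) (ModObj.homPt f)
                  apply biprod.hom_ext
                  · simp
                  · simp [ModObj.act_homPt]) }
      counit := { app := fun M => biprod.fst
                  naturality := fun M N f => by
                    change biprod.map f f ≫ biprod.fst = biprod.fst ≫ f
                    simp }
      left_triangle := by
        ext N
        change biprod.lift (𝟙 N.pt) (N.act s⁻¹) ≫ 𝟙 _ ≫ biprod.fst = 𝟙 _
        rw [id_comp]
        exact biprod.lift_fst _ _
      right_triangle := by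
        ext M
        change biprod.lift (𝟙 (M ⊞ M)) (extAct b M s⁻¹) ≫ 𝟙 _ ≫
          biprod.map biprod.fst biprod.fst = 𝟙 _
        have e2 : extAct b M s⁻¹ = c⁻¹ • mulS C c M := by
          have h4 : s⁻¹ = c⁻¹ • s := by
            rw [Algebra.smul_def, map_inv₀, ← b.sq]
            have := b.s_ne_zero
            field_simp
          have h3 := ((extF b C).obj M).act_smul c⁻¹ s
          rw [← h4] at h3
          rw [← extAct_s b M]
          exact h3
        rw [id_comp]
        apply biprod.hom_ext
        · rw [assoc, biprod.map_fst, biprod.lift_fst_assoc]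
        · rw [assoc, biprod.map_snd, biprod.lift_snd_assoc, e2, Linear.smul_comp, mulS_fst,
            smul_smul, inv_mul_cancel₀ b.c_ne_zero, one_smul, id_comp] }

/-- the data for derived base change -/
noncomputable def quadData : QuadData k F (extF b C) (resF k F C) (extAdj b) s where
  p₁ := { app := fun M => biprod.fst
          naturality := fun M N f => by
            change biprod.map f f ≫ biprod.fst = biprod.fst ≫ f
            simp }
  p₂ := { app := fun M => biprod.snd
          naturality := fun M N f => by
            change biprod.map f f ≫ biprod.snd = biprod.snd ≫ f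
            simp }
  span M := by
    have key : (biprod.fst ≫ biprod.inl + biprod.snd ≫ biprod.inl ≫ mulS C c M :
        M ⊞ M ⟶ M ⊞ M) = 𝟙 _ := by
      rw [inl_mulS]
      exact biprod.total
    have h : (resF k F C).map (s • 𝟙 ((extF b C).obj M)) = mulS C c M := by
      change ModObj.homPt (s • 𝟙 ((extF b C).obj M)) = _
      rw [ModObj.homPt_smul_id, act_extF, extAct_s]
    rw [h]
    exact key
  σ := extSecNat b
  sec := extSec_counit b h2
  lin c' N := by
    change ModObj.homPt (algebraMap k F c' • 𝟙 N) = _
    rw [ModObj.homPt_smul_id, ModObj.act_algebraMap]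
    rfl

end Two

instance : PreservesFiniteColimits (extF b C) := by
  have : PreservesColimitsOfSize.{0, 0} (extF b C) :=
    (extAdj b (C := C)).leftAdjoint_preservesColimits
  exact PreservesColimitsOfSize.preservesFiniteColimits.{0, 0} _

instance : PreservesFiniteLimits (extF b C) := by
  have : PreservesLimitsOfSize.{0, 0} (extF b C) :=
    (extAdj' b (C := C)).rightAdjoint_preservesLimits
  exact PreservesLimitsOfSize.preservesFiniteLimits.{0, 0} _

theorem extF_preservesFiniteLimits (_ : (2 : F) ≠ 0) : PreservesFiniteLimits (extF b C) :=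
  inferInstance

end Ext

end BC

end Orl
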